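import Mathlib

/-!
# The exponential of a derivation
-/

set_option autoImplicit false

namespace Pool.Agent.H99.UGB

section

variable {K R : Type} [Field K] [CharZero K] [CommRing R] [Algebra K R] (D : Derivation K R R)

/-- `D^s v / s!` -/
noncomputable def ec (s : ℕ) (v : R) : R := ((s.factorial : K)⁻¹) • (D : R → R)^[s] v

theorem ec_zero (v : R) : ec D 0 v = v := by simp [ec]

theorem ec_succ (s : ℕ) (v : R) : ((s : K) + 1) • ec D (s + 1) v = D (ec D s v) := by
  unfold ec
  rw [Derivation.map_smul, Function.iterate_succ_apply', smul_smul, Nat.factorial_succ, Nat.cast_mul, mul_inv,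
    ← mul_assoc]
  have h : ((s : K) + 1) ≠ 0 := by exact_mod_cast Nat.succ_ne_zero s
  rw [Nat.cast_add, Nat.cast_one, mul_inv_cancel₀ h, one_mul]

theorem ec_add (s : ℕ) (a b : R) : ec D s (a + b) = ec D s a + ec D s b := by
  have h : ∀ s, (D : R → R)^[s] (a + b) = (D : R → R)^[s] a + (D : R → R)^[s] b := by
    intro s
    induction s with
    | zero => rfl
    | succ s ih => rw [Function.iterate_succ_apply', Function.iterate_succ_apply', Function.iterate_succ_apply',
        ih, map_add]
  unfold ec
  rw [h, smul_add]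

theorem ec_mul (s : ℕ) (a b : R) :
    ec D s (a * b) = ∑ p ∈ Finset.HasAntidiagonal.antidiagonal s, ec D p.1 a * ec D p.2 b := by
  induction s with
  | zero => simp [ec_zero]
  | succ s ih =>
    have h : ((s : K) + 1) ≠ 0 := by exact_mod_cast Nat.succ_ne_zero s
    apply smul_right_injective R h
    simp only
    rw [ec_succ, ih, map_sum]
    have h1 : ((s : K) + 1) • ∑ p ∈ Finset.HasAntidiagonal.antidiagonal (s + 1), ec D p.1 a * ec D p.2 b =
        ∑ p ∈ Finset.HasAntidiagonal.antidiagonal (s + 1), ((p.1 : K) • ec D p.1 a) * ec D p.2 b +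
        ∑ p ∈ Finset.HasAntidiagonal.antidiagonal (s + 1), ec D p.1 a * ((p.2 : K) • ec D p.2 b) := by
      rw [← Finset.sum_add_distrib, Finset.smul_sum]
      refine Finset.sum_congr rfl fun p hp => ?_
      have h2 : (p.1 : K) + p.2 = s + 1 := by
        have := Finset.HasAntidiagonal.mem_antidiagonal.1 hp
        exact_mod_cast this
      rw [← h2, smul_mul_assoc, mul_smul_comm, add_smul]
    rw [h1, Finset.Nat.sum_antidiagonal_succ, Finset.Nat.sum_antidiagonal_succ']
    simp only [Nat.cast_zero, zero_smul, zero_mul, mul_zero, zero_add, add_zero]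
    rw [← Finset.sum_add_distrib]
    refine Finset.sum_congr rfl fun p _ => ?_
    rw [Derivation.leibniz, Nat.cast_add, Nat.cast_one, Nat.cast_add, Nat.cast_one, ec_succ, ec_succ, smul_eq_mul,
      smul_eq_mul]
    ring

theorem ec_const (s : ℕ) (v : R) (h : D v = 0) : ec D (s + 1) v = 0 := by
  have h1 : (D : R → R)^[s + 1] v = 0 := by
    rw [Function.iterate_succ_apply, h]
    clear h
    induction s with
    | zero => rfl
    | succ s ih => rw [Function.iterate_succ_apply', ih, map_zero]
  unfold ec
  rw [h1, smul_zero]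

end

end Pool.Agent.H99.UGB
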