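import Pool.Agent.H57.UGB.Defs
import Pool.Agent.H99.UGB.Exp

/-!
# SER: the Taylor series of the functions on the generic hypersurface (row B-SER)
-/

set_option autoImplicit false

open MvPolynomial

namespace Pool.Agent.H57.UGB

open Pool.Agent.H47.KB Pool.Agent.H47.UG Pool.Agent.H99.UGB

section ff

variable {n d : ℕ} (T : FF d (genK n d)) (k : ℕ)

theorem ser_coeff (s : ℕ) (v : T.L) : PowerSeries.coeff s (ser T k v) = rk T k (ec T.D s (C v)) := by
  unfold ser ec
  rw [PowerSeries.coeff_mk, Algebra.smul_def, MvPolynomial.algebraMap_apply, map_mul]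
  congr 1
  unfold rk
  rw [aeval_C, MvPolynomial.algebraMap_eq]

theorem ser_one : ser T k 1 = 1 := by
  ext1 s
  rw [ser_coeff, map_one]
  cases s with
  | zero => rw [ec_zero, map_one]; simp
  | succ s =>
    rw [ec_const _ _ _ (Derivation.map_one_eq_zero _), map_zero, PowerSeries.coeff_one, if_neg (Nat.succ_ne_zero s)]

theorem ser_add (u v : T.L) : ser T k (u + v) = ser T k u + ser T k v := by
  ext1 s
  rw [map_add, ser_coeff, ser_coeff, ser_coeff, map_add, ec_add, map_add]

theorem ser_mul (u v : T.L) : ser T k (u * v) = ser T k u * ser T k v := by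
  ext1 s
  rw [ser_coeff, map_mul, ec_mul, map_sum, PowerSeries.coeff_mul]
  refine Finset.sum_congr rfl fun p _ => ?_
  rw [ser_coeff, ser_coeff, map_mul]

theorem ser_alg (c : KK n) : ser T k (algebraMap (KK n) T.L c) = PowerSeries.C (C (algebraMap (KK n) T.L c)) := by
  ext1 s
  rw [ser_coeff, PowerSeries.coeff_C]
  cases s with
  | zero =>
    rw [ec_zero, if_pos rfl]
    unfold rk
    rw [aeval_C, MvPolynomial.algebraMap_eq]
  | succ s =>
    rw [if_neg (Nat.succ_ne_zero s)]
    have h : T.D (C (algebraMap (KK n) T.L c)) = 0 := by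
      rw [← MvPolynomial.algebraMap_apply]
      exact Derivation.map_algebraMap _ _
    rw [ec_const _ _ _ h, map_zero]

theorem coeff_ser_zero (v : T.L) : PowerSeries.constantCoeff (ser T k v) = C v := by
  rw [← PowerSeries.coeff_zero_eq_constantCoeff_apply, ser_coeff, ec_zero]
  unfold rk
  rw [aeval_C, MvPolynomial.algebraMap_eq]

theorem coeff_ser_x (l : Fin n) (s : ℕ) (hs : s < k) :
    PowerSeries.coeff (s + 1) (ser T k (T.x l.succ.castSucc)) =
      C (algebraMap (KK n) T.L (((s + 1).factorial : KK n)⁻¹)) * X (⟨s, hs⟩, l) := by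
  have h1 : ∀ s, (T.D : T.BB → T.BB)^[s + 1] (C (T.x l.succ.castSucc)) = X (s, l) := by
    intro s
    induction s with
    | zero =>
      rw [zero_add, Function.iterate_one, FF.D_C]
      unfold FF.δ
      rw [Finset.sum_eq_single l]
      · rw [T.par_x, if_pos rfl, map_one, one_mul]
      · intro l' _ hl
        rw [T.par_x, if_neg hl, map_zero, zero_mul]
      · intro h
        exact absurd (Finset.mem_univ l) h
    | succ s ih => rw [Function.iterate_succ_apply', ih, FF.D_X]
  unfold ser
  rw [PowerSeries.coeff_mk, h1]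
  unfold rk
  rw [aeval_X, dif_pos hs]

/-- `ser` as a ring homomorphism. -/
noncomputable def serHom : T.L →+* PowerSeries (Bk T k) where
  toFun := ser T k
  map_one' := ser_one T k
  map_mul' := ser_mul T k
  map_zero' := by
    have h := ser_add T k 0 0
    rw [add_zero] at h
    exact left_eq_add.1 h
  map_add' := ser_add T k

theorem serHom_apply (v : T.L) : serHom T k v = ser T k v := rfl

theorem genK_hom : (genK n d).IsHomogeneous d := by
  unfold genK gen
  refine IsHomogeneous.sum _ _ _ fun α hα => isHomogeneous_monomial _ ?_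
  have h := (Finset.mem_finsuppAntidiag.1 hα).1
  rw [Finsupp.degree_eq_sum]
  exact h

theorem aeval_ser : aeval (fun j => ser T k (T.x j)) (gen n d (aK T k)) = ser T k (aeval T.x (genK n d)) := by
  unfold genK gen
  rw [← serHom_apply, map_sum, map_sum, map_sum]
  refine Finset.sum_congr rfl fun α _ => ?_
  rw [aeval_monomial, aeval_monomial, map_mul, serHom_apply, ser_alg]
  congr 1
  rw [Finsupp.prod, Finsupp.prod, map_prod]
  refine Finset.prod_congr rfl fun j _ => ?_
  rw [map_pow, serHom_apply]

/-- The generic point lies on the universal space of jets. -/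
theorem onT_zk : OnT d k (aK T k) (fun j => ser T k (T.x j)) := by
  intro s _
  have h : aeval T.x (genK n d) = 0 := (T.ker d (genK n d) genK_hom).2 dvd_rfl
  rw [aeval_ser, h, ← serHom_apply, map_zero, map_zero]

end ff

end Pool.Agent.H57.UGB
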