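import Pool.Agent.H47.UG.BDefs

/-!
# Brody curves and Liouville's theorem

`g : ℂ → ℂ^{n+2} - 0` is entire with bounded spherical derivative, not constant in the projective space.
A jet differential with values in `O(-b)`, `b ≥ 1`, i.e. polynomials `P i` in the jets of the affine lifts
`g / g_i` with `g_0^{-b} P_0 = g_i^{-b} P_i`, vanishes on `g`.
-/

set_option autoImplicit false

open MvPolynomial Filter Topology Set

namespace Pool.Agent.H99.UGB

open Pool.Agent.H47.KB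

/-- The jet at `z` of the `i`-th affine lift `g / g_i`. -/
noncomputable def jet {n : ℕ} (g : ℂ → Vec n) (i : Fin (n + 2)) (z : ℂ) : ℕ × Fin (n + 2) → ℂ :=
  fun p => iteratedDeriv p.1 (fun w => g w p.2 / g w i) z

section

variable {n : ℕ} {g : ℂ → Vec n}

theorem comp_diff (hd : Differentiable ℂ g) (j : Fin (n + 2)) : Differentiable ℂ fun z => g z j :=
  fun z => (differentiableAt_pi.1 (hd z)) j

theorem comp_deriv (hd : Differentiable ℂ g) (j : Fin (n + 2)) (z : ℂ) :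
    HasDerivAt (fun z => g z j) (deriv g z j) z :=
  (hasDerivAt_pi.1 (hd z).hasDerivAt) j

/-- The quotient `g_j / g_i` has the derivative given by the Wronskian. -/
theorem quot_deriv (hd : Differentiable ℂ g) (i j : Fin (n + 2)) {z : ℂ} (hi : g z i ≠ 0) :
    HasDerivAt (fun z => g z j / g z i) ((deriv g z j * g z i - g z j * deriv g z i) / g z i ^ 2) z :=
  (comp_deriv hd j z).div (comp_deriv hd i z) hi

/-- On a disc of radius `1 / (4 C)` around a point where `|g_i|` is maximal one has `|g| ≤ 2 |g_i|`. -/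
theorem near (hd : Differentiable ℂ g) (hne : ∀ z, g z ≠ 0) {C : ℝ} (hC : 0 ≤ C)
    (hB : ∀ (z : ℂ) (i j : Fin (n + 2)), ‖g z i * deriv g z j - g z j * deriv g z i‖ ≤ C * ‖g z‖ ^ 2)
    {z₀ : ℂ} {i : Fin (n + 2)} (hi : ‖g z₀‖ ≤ ‖g z₀ i‖) {z : ℂ} (hz : 4 * C * ‖z - z₀‖ < 1) :
    ‖g z‖ ≤ 2 * ‖g z i‖ := by
  set γ : ℝ → ℂ := fun t => z₀ + (t : ℂ) * (z - z₀) with hγ
  have hγc : Continuous γ := by fun_prop
  have hγd : ∀ t : ℝ, HasDerivAt γ (z - z₀) t := fun t => by
    have h1 : HasDerivAt (fun t : ℝ => (t : ℂ)) 1 t := Complex.ofRealCLM.hasDerivAt (x := t)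
    simpa [hγ] using (h1.mul_const (z - z₀)).const_add z₀
  have hgc : ∀ j, Continuous fun t => g (γ t) j := fun j =>
    ((comp_diff hd j).continuous).comp hγc
  set s : Set ℝ := {t | ∀ j, ‖g (γ t) j‖ ≤ (1 + t) * ‖g (γ t) i‖} with hs
  have hsc : IsClosed s := by
    rw [hs, setOf_forall]
    refine isClosed_iInter fun j => isClosed_le (hgc j).norm ?_
    exact (continuous_const.add continuous_id).mul (hgc i).norm
  have key : Icc (0 : ℝ) 1 ⊆ s := by
    refine IsClosed.Icc_subset_of_forall_mem_nhdsWithin (hsc.inter isClosed_Icc) ?_ ?_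
    · intro j
      simp only [hγ, Complex.ofReal_zero, zero_mul, add_zero, one_mul]
      exact (norm_le_pi_norm (g z₀) j).trans hi
    · rintro x ⟨hx, hx0, hx1⟩
      have hgle : ‖g (γ x)‖ ≤ (1 + x) * ‖g (γ x) i‖ :=
        (pi_norm_le_iff_of_nonneg (mul_nonneg (by linarith) (norm_nonneg _))).2 hx
      have hgi : g (γ x) i ≠ 0 := by
        intro h0
        rw [h0, norm_zero, mul_zero] at hgle
        exact hne _ (norm_le_zero_iff.1 hgle)
      have hgi' : 0 < ‖g (γ x) i‖ := norm_pos_iff.2 hgi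
      have hev : ∀ j, ∀ᶠ t in 𝓝[>] x, ‖g (γ t) j‖ ≤ (1 + t) * ‖g (γ t) i‖ := by
        intro j
        set f : ℝ → ℂ := fun t => g (γ t) j / g (γ t) i with hf
        set f' : ℂ := ((deriv g (γ x) j * g (γ x) i - g (γ x) j * deriv g (γ x) i) / g (γ x) i ^ 2) * (z - z₀)
          with hf'
        have hfd : HasDerivAt f f' x := (quot_deriv hd i j hgi).comp x (hγd x)
        have hnorm : ‖f'‖ < 1 := by
          rw [hf', norm_mul, norm_div, norm_pow]
          have h1 : ‖deriv g (γ x) j * g (γ x) i - g (γ x) j * deriv g (γ x) i‖ ≤ C * ‖g (γ x)‖ ^ 2 := by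
            have := hB (γ x) i j
            rwa [mul_comm (g (γ x) i)] at this
          have h2 : ‖g (γ x)‖ ^ 2 ≤ 4 * ‖g (γ x) i‖ ^ 2 := by
            have h3 : ‖g (γ x)‖ ≤ 2 * ‖g (γ x) i‖ := hgle.trans (by nlinarith)
            calc ‖g (γ x)‖ ^ 2 ≤ (2 * ‖g (γ x) i‖) ^ 2 := by gcongr
              _ = 4 * ‖g (γ x) i‖ ^ 2 := by ring
          have h4 : ‖deriv g (γ x) j * g (γ x) i - g (γ x) j * deriv g (γ x) i‖ / ‖g (γ x) i‖ ^ 2 ≤ 4 * C := by
            rw [div_le_iff₀ (by positivity)]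
            calc _ ≤ C * ‖g (γ x)‖ ^ 2 := h1
              _ ≤ C * (4 * ‖g (γ x) i‖ ^ 2) := by gcongr
              _ = 4 * C * ‖g (γ x) i‖ ^ 2 := by ring
          calc _ ≤ 4 * C * ‖z - z₀‖ := by gcongr
            _ < 1 := hz
        have h5 := (hfd.hasDerivWithinAt (s := Ioi x)).limsup_norm_slope_le hnorm
        have h6 : ∀ᶠ t in 𝓝[>] x, g (γ t) i ≠ 0 :=
          ((hgc i).continuousAt.eventually_ne hgi).filter_mono nhdsWithin_le_nhds
        filter_upwards [h5, h6, self_mem_nhdsWithin] with t ht ht' htx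
        have htx' : 0 < t - x := sub_pos.2 htx
        rw [Real.norm_eq_abs, abs_of_pos htx', inv_mul_lt_iff₀ htx', mul_one] at ht
        have h7 : ‖f x‖ ≤ 1 + x := by
          rw [hf]
          simp only [norm_div]
          rw [div_le_iff₀ hgi']
          exact hx j
        have h8 : ‖f t‖ ≤ 1 + t := by
          calc ‖f t‖ = ‖f x + (f t - f x)‖ := by ring_nf
            _ ≤ ‖f x‖ + ‖f t - f x‖ := norm_add_le _ _
            _ ≤ (1 + x) + (t - x) := by linarith
            _ = 1 + t := by ring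
        rw [hf] at h8
        simp only [norm_div] at h8
        rwa [div_le_iff₀ (norm_pos_iff.2 ht')] at h8
      exact (eventually_all.2 hev)
  have h1 := key (right_mem_Icc.2 zero_le_one)
  have h2 : γ 1 = z := by simp [hγ]
  refine (pi_norm_le_iff_of_nonneg (by positivity)).2 fun j => ?_
  have := h1 j
  rw [h2] at this
  linarith

/-- Cauchy estimates for the jets at a point where `|g_i|` is maximal. -/
theorem jet_le (hd : Differentiable ℂ g) (hne : ∀ z, g z ≠ 0) {C : ℝ} (hC : 0 ≤ C)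
    (hB : ∀ (z : ℂ) (i j : Fin (n + 2)), ‖g z i * deriv g z j - g z j * deriv g z i‖ ≤ C * ‖g z‖ ^ 2)
    {z₀ : ℂ} {i : Fin (n + 2)} (hi : ‖g z₀‖ ≤ ‖g z₀ i‖) (p : ℕ × Fin (n + 2)) :
    ‖jet g i z₀ p‖ ≤ (p.1).factorial * 2 / (1 / (4 * C + 1)) ^ p.1 := by
  have hR : 0 < 1 / (4 * C + 1) := by positivity
  have hmem : ∀ z, ‖z - z₀‖ ≤ 1 / (4 * C + 1) → 4 * C * ‖z - z₀‖ < 1 := fun z hz => by
    calc 4 * C * ‖z - z₀‖ ≤ 4 * C * (1 / (4 * C + 1)) := by gcongr
      _ < 1 := by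
        rw [mul_one_div, div_lt_one (by positivity)]
        linarith
  have hne' : ∀ z, ‖z - z₀‖ ≤ 1 / (4 * C + 1) → g z i ≠ 0 := fun z hz h0 => by
    have := near hd hne hC hB hi (hmem z hz)
    rw [h0, norm_zero, mul_zero] at this
    exact hne _ (norm_le_zero_iff.1 this)
  refine Complex.norm_iteratedDeriv_le_of_forall_mem_sphere_norm_le p.1 hR ?_ ?_
  · apply DifferentiableOn.diffContOnCl
    rw [closure_ball _ hR.ne']
    intro z hz
    rw [Metric.mem_closedBall, dist_eq_norm] at hz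
    exact (quot_deriv hd i p.2 (hne' z hz)).differentiableAt.differentiableWithinAt
  · intro z hz
    rw [mem_sphere_iff_norm] at hz
    rw [norm_div, div_le_iff₀ (norm_pos_iff.2 (hne' z hz.le))]
    exact (norm_le_pi_norm (g z) p.2).trans (near hd hne hC hB hi (hmem z hz.le))

/-- Polynomials are bounded on bounded sets of jets. -/
theorem eval_le {σ : Type} (P : MvPolynomial σ ℂ) (M : σ → ℝ) :
    ∃ K : ℝ, ∀ x : σ → ℂ, (∀ p, ‖x p‖ ≤ M p) → ‖eval x P‖ ≤ K := by
  induction P using MvPolynomial.induction_on with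
  | C a => exact ⟨‖a‖, fun x _ => by simp⟩
  | add P Q hP hQ =>
    obtain ⟨K, hK⟩ := hP
    obtain ⟨K', hK'⟩ := hQ
    exact ⟨K + K', fun x hx => by
      rw [map_add]
      exact (norm_add_le _ _).trans (add_le_add (hK x hx) (hK' x hx))⟩
  | mul_X P p hP =>
    obtain ⟨K, hK⟩ := hP
    exact ⟨K * M p, fun x hx => by
      rw [map_mul, eval_X, norm_mul]
      exact mul_le_mul (hK x hx) (hx p) (norm_nonneg _) ((norm_nonneg _).trans (hK x hx))⟩

/-- The value of a polynomial at the jets of an affine lift is holomorphic where the lift is defined. -/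
theorem eval_jet_diff (hd : Differentiable ℂ g) (i : Fin (n + 2)) (P : MvPolynomial (ℕ × Fin (n + 2)) ℂ)
    {z : ℂ} (hi : g z i ≠ 0) : AnalyticAt ℂ (fun w => eval (jet g i w) P) z := by
  have h1 : ∀ j, AnalyticAt ℂ (fun w => g w j) z := fun j => (comp_diff hd j).analyticAt z
  have h2 : ∀ p : ℕ × Fin (n + 2), AnalyticAt ℂ (fun w => jet g i w p) z := by
    intro p
    have h3 := ((h1 p.2).div (h1 i) hi).iterated_deriv p.1
    refine h3.congr (Eventually.of_forall fun w => ?_)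
    rw [← iteratedDeriv_eq_iterate]
    rfl
  induction P using MvPolynomial.induction_on with
  | C a => simpa using analyticAt_const
  | add P Q hP hQ =>
    simp only [map_add]
    exact hP.add hQ
  | mul_X P p hP =>
    simp only [map_mul, eval_X]
    exact hP.mul (h2 p)

end

/-- **Vanishing on Brody curves.** The relation between the charts is only needed on `{u g_0 g_i ≠ 0}`, `u` an
entire function which is not identically zero. -/
theorem brody_vanish {n b : ℕ} (hb : 1 ≤ b) {g : ℂ → Vec n} (hd : Differentiable ℂ g) (hne : ∀ z, g z ≠ 0)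
    (hB : ∃ C : ℝ, ∀ (z : ℂ) (i j : Fin (n + 2)), ‖g z i * deriv g z j - g z j * deriv g z i‖ ≤ C * ‖g z‖ ^ 2)
    (hnc : ¬ IsConst g) {u : ℂ → ℂ} (hu : Differentiable ℂ u) (hu0 : ∃ z, u z ≠ 0)
    (P : Fin (n + 2) → MvPolynomial (ℕ × Fin (n + 2)) ℂ)
    (h : ∀ i z, u z ≠ 0 → g z 0 ≠ 0 → g z i ≠ 0 →
      (g z i) ^ b * eval (jet g 0 z) (P 0) = (g z 0) ^ b * eval (jet g i z) (P i)) :
    ∀ z, g z 0 ≠ 0 → eval (jet g 0 z) (P 0) = 0 := by
  classical
  intro z₁ hz₁
  obtain ⟨C, hB⟩ := hB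
  have hC : 0 ≤ max C 0 := le_max_right _ _
  replace hB : ∀ (z : ℂ) (i j : Fin (n + 2)),
      ‖g z i * deriv g z j - g z j * deriv g z i‖ ≤ max C 0 * ‖g z‖ ^ 2 := fun z i j =>
    (hB z i j).trans (mul_le_mul_of_nonneg_right (le_max_left _ _) (by positivity))
  -- points outside the zeros of `u g₀` accumulate everywhere
  have hfreq : ∀ z : ℂ, ∀ᶠ w in 𝓝[≠] z, u w * g w 0 ≠ 0 := by
    intro z
    obtain ⟨z₂, hz₂⟩ := hu0
    have hA : AnalyticOnNhd ℂ u univ := fun w _ => hu.analyticAt w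
    have hA' : AnalyticOnNhd ℂ (fun w => g w 0) univ := fun w _ => (comp_diff hd 0).analyticAt w
    have e1 : ∀ᶠ w in 𝓝[≠] z, u w ≠ 0 := by
      by_contra hc
      exact hz₂ (hA.eqOn_zero_of_preconnected_of_frequently_eq_zero isPreconnected_univ (mem_univ z)
        ((Filter.not_eventually.1 hc).mono fun w hw => not_not.1 hw) (mem_univ z₂))
    have e2 : ∀ᶠ w in 𝓝[≠] z, g w 0 ≠ 0 := by
      by_contra hc
      exact hz₁ (hA'.eqOn_zero_of_preconnected_of_frequently_eq_zero isPreconnected_univ (mem_univ z)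
        ((Filter.not_eventually.1 hc).mono fun w hw => not_not.1 hw) (mem_univ z₁))
    filter_upwards [e1, e2] with w h1 h2
    exact mul_ne_zero h1 h2
  -- the local expressions
  set Fi : Fin (n + 2) → ℂ → ℂ := fun i w => eval (jet g i w) (P i) / (g w i) ^ b with hFi
  have hFiA : ∀ i z, g z i ≠ 0 → AnalyticAt ℂ (Fi i) z := fun i z hi =>
    (eval_jet_diff hd i (P i) hi).div (((comp_diff hd i).analyticAt z).pow b) (pow_ne_zero _ hi)
  have hagree : ∀ i i' z, g z i ≠ 0 → g z i' ≠ 0 → Fi i z = Fi i' z := by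
    intro i i' z hi hi'
    have c1 : Tendsto (Fi i) (𝓝[≠] z) (𝓝 (Fi i z)) :=
      (hFiA i z hi).continuousAt.tendsto.mono_left nhdsWithin_le_nhds
    have c2 : Tendsto (Fi i') (𝓝[≠] z) (𝓝 (Fi i' z)) :=
      (hFiA i' z hi').continuousAt.tendsto.mono_left nhdsWithin_le_nhds
    refine tendsto_nhds_unique_of_eventuallyEq c1 c2 ?_
    have e1 : ∀ᶠ w in 𝓝[≠] z, g w i ≠ 0 :=
      ((comp_diff hd i).continuous.continuousAt.eventually_ne hi).filter_mono nhdsWithin_le_nhds
    have e2 : ∀ᶠ w in 𝓝[≠] z, g w i' ≠ 0 :=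
      ((comp_diff hd i').continuous.continuousAt.eventually_ne hi').filter_mono nhdsWithin_le_nhds
    filter_upwards [hfreq z, e1, e2] with w hw h1 h2
    have hu' := left_ne_zero_of_mul hw
    have hg0 := right_ne_zero_of_mul hw
    have r1 := h i w hu' hg0 h1
    have r2 := h i' w hu' hg0 h2
    simp only [hFi]
    rw [div_eq_div_iff (pow_ne_zero _ h1) (pow_ne_zero _ h2)]
    have h3 : (g w 0) ^ b ≠ 0 := pow_ne_zero _ hg0
    apply mul_left_cancel₀ h3
    linear_combination (- (g w i') ^ b) * r1 + (g w i) ^ b * r2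
  -- the index of a coordinate of maximal absolute value
  have hmax : ∀ z, ∃ i, ‖g z‖ ≤ ‖g z i‖ := fun z => by
    obtain ⟨i, -, hi⟩ := Finset.exists_max_image Finset.univ (fun i => ‖g z i‖) Finset.univ_nonempty
    exact ⟨i, (pi_norm_le_iff_of_nonneg (norm_nonneg _)).2 fun j => hi j (Finset.mem_univ j)⟩
  choose m hm using hmax
  have hgm : ∀ z, g z (m z) ≠ 0 := fun z h0 => by
    have := hm z
    rw [h0, norm_zero] at this
    exact hne _ (norm_le_zero_iff.1 this)
  set ψ : ℂ → ℂ := fun z => Fi (m z) z with hψ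
  have hψi : ∀ i z, g z i ≠ 0 → ψ z = Fi i z := fun i z hi => hagree (m z) i z (hgm z) hi
  have hψd : Differentiable ℂ ψ := fun z => by
    have e1 : ψ =ᶠ[𝓝 z] Fi (m z) := by
      filter_upwards [(comp_diff hd (m z)).continuous.continuousAt.eventually_ne (hgm z)] with w hw
      exact hψi _ _ hw
    exact ((hFiA (m z) z (hgm z)).differentiableAt).congr_of_eventuallyEq e1
  -- the bound
  have hK : ∀ i, ∃ K : ℝ, ∀ x : ℕ × Fin (n + 2) → ℂ,
      (∀ p, ‖x p‖ ≤ (p.1).factorial * 2 / (1 / (4 * max C 0 + 1)) ^ p.1) → ‖eval x (P i)‖ ≤ K := fun i =>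
    eval_le (P i) _
  choose K hK using hK
  have hbound : ∀ z, ‖ψ z‖ * ‖g z‖ ^ b ≤ ∑ i, |K i| := fun z => by
    have h1 : ‖eval (jet g (m z) z) (P (m z))‖ ≤ K (m z) :=
      hK (m z) _ fun p => jet_le hd hne hC hB (hm z) p
    have h2 : K (m z) ≤ ∑ i, |K i| :=
      (le_abs_self _).trans (Finset.single_le_sum (f := fun i => |K i|) (fun i _ => abs_nonneg _)
        (Finset.mem_univ (m z)))
    have h3 : ‖ψ z‖ * ‖g z (m z)‖ ^ b = ‖eval (jet g (m z) z) (P (m z))‖ := by
      simp only [hψ, hFi]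
      rw [norm_div, norm_pow, div_mul_cancel₀]
      exact pow_ne_zero _ (norm_ne_zero_iff.2 (hgm z))
    calc ‖ψ z‖ * ‖g z‖ ^ b ≤ ‖ψ z‖ * ‖g z (m z)‖ ^ b := by
          gcongr
          exact hm z
      _ ≤ _ := h3.le.trans (h1.trans h2)
  set K₀ : ℝ := ∑ i, |K i| with hK₀
  -- Liouville
  have hliou : ∀ (τ : ℂ) (i j : Fin (n + 2)) (z w : ℂ),
      ψ z * (g z i + τ * g z j) ^ b = ψ w * (g w i + τ * g w j) ^ b := by
    intro τ i j z w
    have hdif : Differentiable ℂ fun z => ψ z * (g z i + τ * g z j) ^ b :=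
      hψd.mul (((comp_diff hd i).add ((comp_diff hd j).const_mul τ)).pow b)
    refine hdif.apply_eq_apply_of_bounded ?_ z w
    rw [isBounded_iff_forall_norm_le]
    refine ⟨K₀ * (1 + ‖τ‖) ^ b, ?_⟩
    rintro _ ⟨y, rfl⟩
    simp only [norm_mul, norm_pow]
    have h1 : ‖g y i + τ * g y j‖ ≤ (1 + ‖τ‖) * ‖g y‖ := by
      calc _ ≤ ‖g y i‖ + ‖τ * g y j‖ := norm_add_le _ _
        _ ≤ ‖g y‖ + ‖τ‖ * ‖g y‖ := by
          rw [norm_mul]
          gcongr
          · exact norm_le_pi_norm (g y) i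
          · exact norm_le_pi_norm (g y) j
        _ = _ := by ring
    calc ‖ψ y‖ * ‖g y i + τ * g y j‖ ^ b ≤ ‖ψ y‖ * ((1 + ‖τ‖) * ‖g y‖) ^ b := by gcongr
      _ = (‖ψ y‖ * ‖g y‖ ^ b) * (1 + ‖τ‖) ^ b := by
        rw [mul_pow]
        ring
      _ ≤ K₀ * (1 + ‖τ‖) ^ b := by
        gcongr
        exact hbound y
  have hψ0 : ∀ z, ψ z = 0 := by
    by_contra hc
    push Not at hc
    obtain ⟨z₂, hz₂⟩ := hc
    obtain ⟨j, hj⟩ : ∃ j, g z₂ j ≠ 0 := ⟨m z₂, hgm z₂⟩
    have hnz : ∀ z, ψ z ≠ 0 ∧ g z j ≠ 0 := fun z => by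
      have h1 := hliou 0 j j z z₂
      simp only [zero_mul, add_zero] at h1
      have h2 : ψ z₂ * g z₂ j ^ b ≠ 0 := mul_ne_zero hz₂ (pow_ne_zero _ hj)
      rw [← h1] at h2
      refine ⟨left_ne_zero_of_mul h2, fun h3 => ?_⟩
      have := right_ne_zero_of_mul h2
      rw [h3] at this
      exact this (zero_pow (by omega))
    apply hnc
    intro z
    refine ⟨g z j / g 0 j, ?_⟩
    funext i
    have h1 := hliou (-(g 0 i / g 0 j)) i j z 0
    have h2 : g 0 i + -(g 0 i / g 0 j) * g 0 j = 0 := by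
      rw [neg_mul, div_mul_cancel₀ _ (hnz 0).2, add_neg_cancel]
    rw [h2, zero_pow (by omega), mul_zero] at h1
    have h3 : g z i + -(g 0 i / g 0 j) * g z j = 0 := by
      rcases mul_eq_zero.1 h1 with h4 | h4
      · exact absurd h4 (hnz z).1
      · exact pow_eq_zero_iff (by omega) |>.1 h4
    rw [Pi.smul_apply, smul_eq_mul]
    have h5 := (hnz 0).2
    field_simp at h3 ⊢
    linear_combination h3
  have h1 := hψi 0 z₁ hz₁
  rw [hψ0 z₁] at h1
  have h2 : eval (jet g 0 z₁) (P 0) / (g z₁ 0) ^ b = 0 := h1.symm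
  exact (div_eq_zero_iff.1 h2).resolve_right (pow_ne_zero _ hz₁)

end Pool.Agent.H99.UGB
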